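import Pool.Agent.W478R.GCheck
import Pool.Agent.TH428.RM.Defs

set_option autoImplicit false

/-!
# Natural number checker for the global induction step, asymmetric certificates

The row checker of `Pool.Agent.W478R.GCheck` for the book theorem `TBookThm2`: every density cell
chooses one certificate of a finite list (by its index `ci`), possibly with the two colours
exchanged (`sw`).
-/

open Finset

namespace Pool.Agent.TH502.RM

open H110R2 W478R Pool.Agent.TH428.RM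

/-! ### Exchange of the colours -/

/-- exchange of the two exponents -/
def swP (P : List (ℝ × ℕ × ℕ)) : List (ℝ × ℕ × ℕ) := P.map (fun m => (m.1, m.2.2, m.2.1))

lemma ev_swP (P : List (ℝ × ℕ × ℕ)) (x y : ℝ) : ev (swP P) x y = ev P y x := by
  unfold ev swP
  rw [List.map_map]
  congr 1
  apply List.map_congr_left
  intro m _
  simp only [Function.comp]
  ring

lemma G2_swP (g0 a1 a2 : ℝ) (P : List (ℝ × ℕ × ℕ)) (dl x y : ℝ) :
    G2 g0 a2 a1 (swP P) dl x y = G2 g0 a1 a2 P dl y x := by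
  unfold G2
  rw [ev_swP]
  ring

lemma POK_swP {P : List (ℝ × ℕ × ℕ)} (h : POK P) : POK (swP P) := by
  intro m hm
  unfold swP at hm
  obtain ⟨m', hm', rfl⟩ := List.mem_map.mp hm
  have h1 := h m' hm'
  exact ⟨h1.1, by simp only; omega⟩

/-- the certificate with exchanged colours -/
theorem cert2_swap {T1 T2 wR wB g0 a1 a2 : ℝ} {P : List (ℝ × ℕ × ℕ)} {dl : ℝ}
    (h : Cert2 T1 T2 wR wB g0 a1 a2 P dl) : Cert2 T2 T1 wB wR g0 a2 a1 (swP P) dl where
  hT10 := h.hT20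
  hT11 := h.hT21
  hT20 := h.hT10
  hT21 := h.hT11
  hwR := h.hwB
  hwB := h.hwR
  hg := h.hg
  ha1 := h.ha2
  ha2 := h.ha1
  hP := POK_swP h.hP
  hdl := h.hdl
  hR := by
    intro x y
    rw [G2_swP]
    have := h.hB y x
    rwa [show T1 * y + x = x + T1 * y by ring] at this
  hB := by
    intro x y
    rw [G2_swP]
    have := h.hR y x
    rwa [show y + T2 * x = T2 * x + y by ring] at this

/-! ### Certificates in natural numbers -/

/-- a certificate: tilts, lower bounds for `- log (1 - T)`, weights and value, all over `N` -/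
structure CC where
  T1 : ℕ
  T2 : ℕ
  l1T1 : ℕ
  l1T2 : ℕ
  wR : ℕ
  wB : ℕ
  G : ℕ

/-- exchange of the colours -/
def CC.swap (c : CC) : CC := ⟨c.T2, c.T1, c.l1T2, c.l1T1, c.wB, c.wR, c.G⟩

/-- validity of a certificate -/
structure CCOK (N B0 : ℕ) (c : CC) : Prop where
  hT10 : 0 < c.T1
  hT1N : c.T1 < N
  hT20 : 0 < c.T2
  hT2N : c.T2 < N
  hl1 : expU N c.l1T1 N (N - c.T1) = true
  hl2 : expU N c.l1T2 N (N - c.T2) = true
  hcert : ∃ (g0 a1 a2 : ℝ) (P : List (ℝ × ℕ × ℕ)) (dl : ℝ),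
    Cert2 ((c.T1 : ℝ) / N) ((c.T2 : ℝ) / N) ((c.wR : ℝ) / N) ((c.wB : ℝ) / N) g0 a1 a2 P dl ∧
    (c.G : ℝ) / N ≤ g0 - 2 * dl * C8c (B0 : ℝ)

theorem CCOK.swap {N B0 : ℕ} {c : CC} (h : CCOK N B0 c) : CCOK N B0 c.swap where
  hT10 := h.hT20
  hT1N := h.hT2N
  hT20 := h.hT10
  hT2N := h.hT1N
  hl1 := h.hl2
  hl2 := h.hl1
  hcert := by
    obtain ⟨g0, a1, a2, P, dl, h1, h2⟩ := h.hcert
    exact ⟨g0, a2, a1, swP P, dl, cert2_swap h1, h2⟩

/-- the certificate number `ci`, with exchanged colours if `sw` -/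
def pick (cs : List CC) (ci : ℕ) (sw : Bool) : Option CC :=
  match cs[ci]? with
  | none => none
  | some c => some (if sw then c.swap else c)

lemma pick_ok {N B0 : ℕ} {cs : List CC} (hcs : ∀ c ∈ cs, CCOK N B0 c) {ci : ℕ} {sw : Bool} {c : CC}
    (h : pick cs ci sw = some c) : CCOK N B0 c := by
  unfold pick at h
  split at h
  · exact absurd h (by simp)
  · rename_i c' hc'
    have hm : c' ∈ cs := List.mem_of_getElem? hc'
    have h2 := hcs c' hm
    rw [Option.some.injEq] at h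
    cases sw
    · simp only [Bool.false_eq_true, if_false] at h
      rw [← h]; exact h2
    · simp only [if_true] at h
      rw [← h]; exact h2.swap

/-! ### The local game -/

/-- check of the local game -/
def pkchk2 (N B0 : ℕ) (c : CC) (p1 p2 b1 b2 A W lp1 lth1 lp2 lth2 e1 v1 e2 v2 : ℕ) : Bool :=
  decide (N < 5 * p1) && decide (p1 < N) && decide (N < 5 * p2) && decide (p2 < N) &&
  decide (0 < b1) && decide (0 < b2) &&
  decide (b1 * (N - p1) ≤ B0 * p1 * N) && decide (b2 * (N - p2) ≤ B0 * p2 * N) &&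
  expL N lp1 N p1 && expL N lp2 N p2 &&
  expL N lth1 (p1 * N + (N - p1) * c.T1) (p1 * N) &&
  expL N lth2 (p2 * N + (N - p2) * c.T2) (p2 * N) &&
  decide (0 < v1) && decide (0 < v2) && expL N e1 N v1 && expL N e2 N v2 &&
  decide (e1 * (N * N * N) + b1 * lp1 * (N * N) + b2 * ((p2 * N + (N - p2) * c.T2) * lth2)
    ≤ A * (N * N * N) + b2 * ((N - p2) * (N - c.T2) * c.l1T2)) &&
  decide (e2 * (N * N * N) + b2 * lp2 * (N * N) + b1 * ((p1 * N + (N - p1) * c.T1) * lth1)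
    ≤ W * (N * N * N) + b1 * ((N - p1) * (N - c.T1) * c.l1T1)) &&
  decide (c.wR * v1 + c.wB * v2 < c.G * N)

/-- one exponent -/
lemma expo_le {N p1 p2 b1 b2 A T l1T lp1 lth2 e1 : ℕ} (hN : 0 < N) (hp1 : 0 < p1) (hp2 : 0 < p2)
    (hp2N : p2 < N) (hT0 : 0 < T) (hTN : T < N) (hl : expU N l1T N (N - T) = true)
    (h9 : expL N lp1 N p1 = true)
    (h12 : expL N lth2 (p2 * N + (N - p2) * T) (p2 * N) = true)
    (h17 : e1 * (N * N * N) + b1 * lp1 * (N * N) + b2 * ((p2 * N + (N - p2) * T) * lth2)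
      ≤ A * (N * N * N) + b2 * ((N - p2) * (N - T) * l1T)) :
    -((A : ℝ) / N) + (b1 : ℝ) / N * Real.log (1 / ((p1 : ℝ) / N))
      + (b2 : ℝ) / N * KK ((p2 : ℝ) / N) ((T : ℝ) / N) ≤ -((e1 : ℝ) / N) := by
  have hN' : (0 : ℝ) < N := by exact_mod_cast hN
  have hp1' : (0 : ℝ) < p1 := by exact_mod_cast hp1
  have k2 := KK_le hN hp2 hp2N hT0 hTN h12 hl
  have l1 : Real.log (1 / ((p1 : ℝ) / N)) ≤ (lp1 : ℝ) / N := by
    rw [one_div_div]
    exact log_le_of_le_exp (by positivity) (expL_sound hN hp1 h9)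
  have h17' : (e1 : ℝ) * (N * N * N) + b1 * lp1 * (N * N)
      + b2 * ((p2 * N + ((N - p2 : ℕ) : ℝ) * T) * lth2)
      ≤ A * (N * N * N) + b2 * (((N - p2 : ℕ) : ℝ) * ((N - T : ℕ) : ℝ) * l1T) := by
    exact_mod_cast h17
  have a1 := mul_le_mul_of_nonneg_left l1 (by positivity : (0 : ℝ) ≤ (b1 : ℝ) / N)
  have a2 := mul_le_mul_of_nonneg_left k2 (by positivity : (0 : ℝ) ≤ (b2 : ℝ) / N)
  refine (add_le_add (add_le_add le_rfl a1) a2).trans ?_
  have e : -((e1 : ℝ) / N) - (-((A : ℝ) / N) + (b1 : ℝ) / N * ((lp1 : ℝ) / N)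
      + (b2 : ℝ) / N * (((p2 * N + ((N - p2 : ℕ) : ℝ) * T) * lth2
        - ((N - p2 : ℕ) : ℝ) * ((N - T : ℕ) : ℝ) * l1T) / (N * N * N)))
      = ((A * (N * N * N) + b2 * (((N - p2 : ℕ) : ℝ) * ((N - T : ℕ) : ℝ) * l1T))
        - (e1 * (N * N * N) + b1 * lp1 * (N * N)
          + b2 * ((p2 * N + ((N - p2 : ℕ) : ℝ) * T) * lth2))) / (N * N * N * N) := by
    field_simp
    ring
  have e' : 0 ≤ ((A * (N * N * N) + b2 * (((N - p2 : ℕ) : ℝ) * ((N - T : ℕ) : ℝ) * l1T))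
        - (e1 * (N * N * N) + b1 * lp1 * (N * N)
          + b2 * ((p2 * N + ((N - p2 : ℕ) : ℝ) * T) * lth2))) / ((N : ℝ) * N * N * N) :=
    div_nonneg (by linarith) (by positivity)
  linarith

lemma bcap {N B0 p b : ℕ} (hN : 0 < N) (hpN : p < N) (h : b * (N - p) ≤ B0 * p * N) :
    (b : ℝ) / N * (1 - (p : ℝ) / N) ≤ (B0 : ℝ) * ((p : ℝ) / N) := by
  have hN' : (0 : ℝ) < N := by exact_mod_cast hN
  have hcp : ((N - p : ℕ) : ℝ) = N - p := Nat.cast_sub hpN.le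
  have h' : (b : ℝ) * ((N - p : ℕ) : ℝ) ≤ B0 * p * N := by exact_mod_cast h
  have e1 : (b : ℝ) / N * (1 - (p : ℝ) / N) = b * ((N - p : ℕ) : ℝ) / (N * N) := by
    rw [hcp]; field_simp
  have e2 : (B0 : ℝ) * ((p : ℝ) / N) = (B0 * p * N) / (N * N) := by field_simp
  rw [e1, e2]
  exact div_le_div_of_nonneg_right h' (by positivity)

theorem pkchk2_sound {N B0 : ℕ} (hN : 0 < N) {c : CC} (hc : CCOK N B0 c)
    {p1 p2 b1 b2 A W lp1 lth1 lp2 lth2 e1 v1 e2 v2 : ℕ}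
    (h : pkchk2 N B0 c p1 p2 b1 b2 A W lp1 lth1 lp2 lth2 e1 v1 e2 v2 = true) :
    ∃ (g0 a1 a2 : ℝ) (P : List (ℝ × ℕ × ℕ)) (dl : ℝ),
      Cert2 ((c.T1 : ℝ) / N) ((c.T2 : ℝ) / N) ((c.wR : ℝ) / N) ((c.wB : ℝ) / N) g0 a1 a2 P dl ∧
      PK2 ((c.T1 : ℝ) / N) ((c.T2 : ℝ) / N) ((c.wR : ℝ) / N) ((c.wB : ℝ) / N) g0 dl (B0 : ℝ)
        ((p1 : ℝ) / N) ((p2 : ℝ) / N) ((b1 : ℝ) / N) ((b2 : ℝ) / N) ((A : ℝ) / N)
        ((W : ℝ) / N) := by
  obtain ⟨hT10, hT1N, hT20, hT2N, hl1, hl2, g0, a1, a2, P, dl, hcert, hG⟩ := hc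
  refine ⟨g0, a1, a2, P, dl, hcert, ?_⟩
  unfold pkchk2 at h
  simp only [Bool.and_eq_true, decide_eq_true_eq] at h
  obtain ⟨⟨⟨⟨⟨⟨⟨⟨⟨⟨⟨⟨⟨⟨⟨⟨⟨⟨h1, h2⟩, h3⟩, h4⟩, h5⟩, h6⟩, h7⟩, h8⟩, h9⟩, h10⟩, h11⟩, h12⟩, h13⟩, h14⟩,
    h15⟩, h16⟩, h17⟩, h18⟩, h19⟩ := h
  have hN' : (0 : ℝ) < N := by exact_mod_cast hN
  have hp1 : 0 < p1 := by omega
  have hp2 : 0 < p2 := by omega
  have hp1' : (0 : ℝ) < p1 := by exact_mod_cast hp1
  have hp2' : (0 : ℝ) < p2 := by exact_mod_cast hp2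
  have hb1' : (0 : ℝ) < b1 := by exact_mod_cast h5
  have hb2' : (0 : ℝ) < b2 := by exact_mod_cast h6
  have h1' : (N : ℝ) < 5 * p1 := by exact_mod_cast h1
  have h3' : (N : ℝ) < 5 * p2 := by exact_mod_cast h3
  have h2' : (p1 : ℝ) < N := by exact_mod_cast h2
  have h4' : (p2 : ℝ) < N := by exact_mod_cast h4
  have x1 := exp_neg_le hN h13 h15
  have x2 := exp_neg_le hN h14 h16
  have h19' : (c.wR : ℝ) * v1 + c.wB * v2 < c.G * N := by exact_mod_cast h19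
  have y1 := expo_le (b1 := b1) (b2 := b2) (A := A) (e1 := e1) hN hp1 hp2 h4 hT20 hT2N hl2 h9 h12 h17
  have y2 := expo_le (b1 := b2) (b2 := b1) (A := W) (e1 := e2) hN hp2 hp1 h2 hT10 hT1N hl1 h10 h11 h18
  have z1 := (Real.exp_le_exp.mpr y1).trans x1
  have z2 := (Real.exp_le_exp.mpr y2).trans x2
  refine ⟨?_, ?_, ?_, ?_, by positivity, by positivity, by positivity, by positivity,
    bcap hN h2 h7, bcap hN h4 h8, ?_⟩
  · rw [lt_div_iff₀ hN']; linarith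
  · rw [div_lt_one hN']; exact h2'
  · rw [lt_div_iff₀ hN']; linarith
  · rw [div_lt_one hN']; exact h4'
  · have w1 := mul_le_mul_of_nonneg_left z1 (by positivity : (0 : ℝ) ≤ (c.wR : ℝ) / N)
    have w2 := mul_le_mul_of_nonneg_left z2 (by positivity : (0 : ℝ) ≤ (c.wB : ℝ) / N)
    have h20 : (c.wR : ℝ) / N * ((v1 : ℝ) / N) + (c.wB : ℝ) / N * ((v2 : ℝ) / N)
        < (c.G : ℝ) / N := by
      have e : (c.wR : ℝ) / N * ((v1 : ℝ) / N) + (c.wB : ℝ) / N * ((v2 : ℝ) / N)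
          = ((c.wR : ℝ) * v1 + c.wB * v2) / (N * N) := by field_simp
      have e' : (c.G : ℝ) / N = (c.G * N) / (N * N) := by field_simp
      rw [e, e']
      exact div_lt_div_of_pos_right h19' (by positivity)
    linarith

/-! ### Cells -/

/-- a density cell: the data of `GCell`, the index of the certificate and whether the colours are
exchanged in it -/
structure GCell2 where
  g : GCell
  ci : ℕ
  sw : Bool

/-- the local game of a cell with the certificate chosen by the cell -/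
def pkcell (N B0 : ℕ) (cs : List CC) (pl : ℕ) (r : GCell2) : Bool :=
  match pick cs r.ci r.sw with
  | none => false
  | some c => pkchk2 N B0 c (pl - 1) (N - r.g.ph - 1) r.g.b1 r.g.b2 r.g.A r.g.W r.g.lp1 r.g.lth1
      r.g.lp2 r.g.lth2 r.g.e1 r.g.v1 r.g.e2 r.g.v2

/-- check of one density cell `[pl, r.ph]` for the line `L` with active cone given by `lo, hi, top` -/
def cellchk2 (N B0 : ℕ) (cs : List CC) (Ls : List (ℕ × ℕ)) (L lo hi : ℕ × ℕ) (top : Bool) (pl : ℕ)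
    (r : GCell2) : Bool :=
  decide (0 < pl) && decide (r.g.ph + 1 < N) && pkcell N B0 cs pl r &&
  domchk N Ls r.g.L1 r.g.s1 r.g.L2 r.g.s2 r.g.t r.g.b1 r.g.A r.g.B &&
  domchk N Ls r.g.M1 r.g.c1 r.g.M2 r.g.c2 r.g.t2 r.g.b2 r.g.A2 r.g.W &&
  slackChk N L lo hi top (((N : ℤ) + r.g.b1 + r.g.b2) * L.1 - ((r.g.A : ℤ) + r.g.A2 + 1) * N)
    (((N : ℤ) + r.g.b1 + r.g.b2) * L.2 - ((r.g.W : ℤ) + r.g.B) * N)

theorem cellchk2_sound {N B0 : ℕ} (hN : 0 < N) (hT : TBookThm2) {cs : List CC}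
    (hcs : ∀ c ∈ cs, CCOK N B0 c) {Ls : List (ℕ × ℕ)} {L lo hi : ℕ × ℕ}
    {top : Bool} (hlo : lo ∈ Ls) (hhi : top = false → hi ∈ Ls) {pl : ℕ} {r : GCell2}
    (h : cellchk2 N B0 cs Ls L lo hi top pl r = true) :
    CellOK (Ls.map (rl N)) (rl N L) (1 / N) ((pl : ℝ) / N) ((r.g.ph : ℝ) / N) := by
  have hN' : (0 : ℝ) < N := by exact_mod_cast hN
  unfold cellchk2 at h
  simp only [Bool.and_eq_true, decide_eq_true_eq] at h
  obtain ⟨⟨⟨⟨⟨h1, h2⟩, h3⟩, h4⟩, h5⟩, h6⟩ := h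
  unfold pkcell at h3
  split at h3
  · exact absurd h3 (by simp)
  rename_i c hc
  obtain ⟨g0, a1, a2, P, dl, hcert, hPK⟩ := pkchk2_sound hN (pick_ok hcs hc) h3
  have hTB := hT _ _ _ _ _ _ _ _ _ _ _ _ _ _ _ _ hcert hPK
  refine ⟨_, _, _, _, (r.g.A : ℝ) / N, (r.g.B : ℝ) / N, (r.g.W : ℝ) / N, (r.g.A2 : ℝ) / N,
    hPK.hb1, hPK.hb2, ?_, ?_, hTB, domchk_sound hN h4, domchk_sound hN h5, ?_⟩
  · apply div_lt_div_of_pos_right _ hN'
    exact_mod_cast (by omega : pl - 1 < pl)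
  · have e : ((N - r.g.ph - 1 : ℕ) : ℝ) = N - r.g.ph - 1 := by
      rw [Nat.cast_sub (by omega), Nat.cast_sub (by omega)]; simp
    rw [e, div_lt_iff₀ hN', sub_mul, div_mul_cancel₀ _ hN'.ne']
    linarith
  · intro k l hlk hact
    have hs := slackChk_sound hN h6 k l hlk (hact _ (List.mem_map_of_mem hlo))
      (fun ht => hact _ (List.mem_map_of_mem (hhi ht)))
    push_cast at hs
    unfold rl lv
    simp only
    have e3 : (1 + (r.g.b1 : ℝ) / N + (r.g.b2 : ℝ) / N) * ((L.1 : ℝ) / N * k + (L.2 : ℝ) / N * l)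
        - (((r.g.A : ℝ) / N + (r.g.A2 : ℝ) / N) * k + ((r.g.W : ℝ) / N + (r.g.B : ℝ) / N) * l
          + 1 / N * k)
        = ((((N : ℝ) + r.g.b1 + r.g.b2) * L.1 - (r.g.A + r.g.A2 + 1) * N) * k
          + (((N : ℝ) + r.g.b1 + r.g.b2) * L.2 - (r.g.W + r.g.B) * N) * l) / (N * N) := by
      field_simp
      ring
    have e4 : 0 ≤ ((((N : ℝ) + r.g.b1 + r.g.b2) * L.1 - (r.g.A + r.g.A2 + 1) * N) * k
          + (((N : ℝ) + r.g.b1 + r.g.b2) * L.2 - (r.g.W + r.g.B) * N) * l) / (N * N) :=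
      div_nonneg hs (by positivity)
    linarith

/-- check of a list of consecutive cells -/
def cellschk2 (N B0 : ℕ) (cs : List CC) (Ls : List (ℕ × ℕ)) (L lo hi : ℕ × ℕ) (top : Bool) :
    ℕ → List GCell2 → Bool
  | pl, [] => decide (1 < pl) && expL N L.1 N (pl - 1)
  | pl, r :: rs => cellchk2 N B0 cs Ls L lo hi top pl r && cellschk2 N B0 cs Ls L lo hi top r.g.ph rs

lemma cellschk2_sound {N B0 : ℕ} (hN : 0 < N) (hT : TBookThm2) {cs : List CC}
    (hcs : ∀ c ∈ cs, CCOK N B0 c) {Ls : List (ℕ × ℕ)} {L lo hi : ℕ × ℕ} {top : Bool} (hlo : lo ∈ Ls)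
    (hhi : top = false → hi ∈ Ls) : ∀ (rs : List GCell2) (pl : ℕ),
    cellschk2 N B0 cs Ls L lo hi top pl rs = true →
    ∃ (J : ℕ) (p : ℕ → ℝ), p 0 = (pl : ℝ) / N ∧ Real.exp (-(rl N L).1) < p J ∧
      ∀ j < J, CellOK (Ls.map (rl N)) (rl N L) (1 / N) (p j) (p (j + 1)) := by
  have hN' : (0 : ℝ) < N := by exact_mod_cast hN
  intro rs
  induction rs with
  | nil =>
    intro pl h
    unfold cellschk2 at h
    simp only [Bool.and_eq_true, decide_eq_true_eq] at h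
    refine ⟨0, fun _ => (pl : ℝ) / N, rfl, ?_, fun j hj => absurd hj (by omega)⟩
    have h2 := exp_neg_le hN (by omega : 0 < pl - 1) h.2
    refine lt_of_le_of_lt h2 ?_
    apply div_lt_div_of_pos_right _ hN'
    exact_mod_cast (by omega : pl - 1 < pl)
  | cons r rs ih =>
    intro pl h
    unfold cellschk2 at h
    simp only [Bool.and_eq_true] at h
    obtain ⟨h1, h2⟩ := h
    obtain ⟨J, p, hp0, hpJ, hp⟩ := ih r.g.ph h2
    refine ⟨J + 1, fun j => Nat.casesOn j ((pl : ℝ) / N) p, rfl, hpJ, ?_⟩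
    intro j hj
    cases j with
    | zero =>
      have := cellchk2_sound hN hT hcs hlo hhi h1
      show CellOK (Ls.map (rl N)) (rl N L) (1 / N) ((pl : ℝ) / N) (p 0)
      rw [hp0]
      exact this
    | succ i => exact hp i (by omega)

/-- a row: a new line with its data -/
structure GRow2 where
  L : ℕ × ℕ
  lo : ℕ × ℕ
  hi : ℕ × ℕ
  top : Bool
  p0 : ℕ
  cells : List GCell2

/-- check of a row -/
def growchk2 (N B0 : ℕ) (cs : List CC) (Ls : List (ℕ × ℕ)) (r : GRow2) : Bool :=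
  decide (0 < r.L.1) && decide (r.L.1 ≤ r.L.2) && hasL Ls r.lo && (r.top || hasL Ls r.hi) &&
  decide (r.p0 + 1 < N) && expL N r.L.2 N (N - r.p0 - 1) &&
  cellschk2 N B0 cs Ls r.L r.lo r.hi r.top r.p0 r.cells

theorem growchk2_sound {N B0 : ℕ} (hN : 0 < N) (hT : TBookThm2) {cs : List CC}
    (hcs : ∀ c ∈ cs, CCOK N B0 c) {Ls : List (ℕ × ℕ)} (hLs : ∀ L ∈ Ls, L.1 ≤ L.2) {r : GRow2}
    (hr : r.L ∈ Ls) (h : growchk2 N B0 cs Ls r = true) : StepOK (Ls.map (rl N)) (rl N r.L) := by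
  have hN' : (0 : ℝ) < N := by exact_mod_cast hN
  unfold growchk2 at h
  simp only [Bool.and_eq_true, decide_eq_true_eq] at h
  obtain ⟨⟨⟨⟨⟨⟨h1, h2⟩, h3⟩, h4⟩, h5⟩, h6⟩, h7⟩ := h
  have hle : ∀ L' ∈ Ls.map (rl N), L'.1 ≤ L'.2 := by
    intro L' hL'
    obtain ⟨L, hL, rfl⟩ := List.mem_map.mp hL'
    unfold rl
    simp only
    rw [div_le_div_iff_of_pos_right hN']
    exact_mod_cast hLs L hL
  have hL1 : 0 < (rl N r.L).1 := by
    unfold rl; simp only
    have : (0 : ℝ) < r.L.1 := by exact_mod_cast h1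
    positivity
  have hL2 : 0 < (rl N r.L).2 := by
    unfold rl; simp only
    have h0 : (0 : ℝ) < r.L.1 := by exact_mod_cast h1
    have : (r.L.1 : ℝ) ≤ r.L.2 := by exact_mod_cast h2
    have : (0 : ℝ) < r.L.2 := by linarith
    positivity
  obtain ⟨J, p, hp0, hpJ, hp⟩ := cellschk2_sound hN hT hcs (hasL_sound h3) (by
    intro htop
    rw [htop] at h4
    simp only [Bool.false_or] at h4
    exact hasL_sound h4) r.cells r.p0 h7
  refine step_cells _ hle (rl N r.L) (List.mem_map_of_mem hr) hL1 hL2 (1 / N) (by positivity)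
    J p ?_ hpJ hp
  rw [hp0]
  have h8 := exp_neg_le hN (by omega : 0 < N - r.p0 - 1) h6
  have hcst : ((N - r.p0 - 1 : ℕ) : ℝ) = N - r.p0 - 1 := by
    rw [Nat.cast_sub (by omega), Nat.cast_sub (by omega)]; simp
  have h9 : Real.exp (-(rl N r.L).2) ≤ ((N - r.p0 - 1 : ℕ) : ℝ) / N := h8
  rw [hcst] at h9
  have h10 : ((N : ℝ) - r.p0 - 1) / N = 1 - (r.p0 : ℝ) / N - 1 / N := by
    field_simp
  rw [h10] at h9
  have : 0 < 1 / (N : ℝ) := by positivity
  linarith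

/-- **Bound from asymmetric certificates on top of a black-box family.** The list `Ls` of all lines is
given separately, so that the rows can be checked one by one in different files. -/
theorem cert_bound4 {N B0 : ℕ} (hN : 0 < N) (hT : TBookThm2) {cs : List CC}
    (hcs : ∀ c ∈ cs, CCOK N B0 c) (Old Ls : List (ℕ × ℕ)) (rows : List GRow2) (C0 : ℝ)
    (hLs : Ls = Old ++ rows.map GRow2.L)
    (hOld : ∀ k l : ℕ, BdAt (Old.map (rl N)) C0 k l)
    (hOle : Old.all (fun L => decide (L.1 ≤ L.2)) = true) (hne : rows ≠ [])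
    (hrows : ∀ r ∈ rows, growchk2 N B0 cs Ls r = true) :
    ∃ C : ℝ, 1 ≤ C ∧ ∀ k l : ℕ, BdAt (Ls.map (rl N)) C k l := by
  have hN' : (0 : ℝ) < N := by exact_mod_cast hN
  have hle : ∀ L ∈ Ls, L.1 ≤ L.2 := by
    intro L hL
    rw [hLs, List.mem_append] at hL
    rcases hL with hL | hL
    · have := List.all_eq_true.mp hOle L hL
      simpa using this
    · obtain ⟨r, hr, rfl⟩ := List.mem_map.mp hL
      have h := hrows r hr
      unfold growchk2 at h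
      simp only [Bool.and_eq_true, decide_eq_true_eq] at h
      exact h.1.1.1.1.1.2
  apply main_induction_C C0
  · rw [hLs]
    cases rows with
    | nil => exact absurd rfl hne
    | cons r rows => simp
  · intro L hL
    obtain ⟨L', hL', rfl⟩ := List.mem_map.mp hL
    unfold rl
    simp only
    refine ⟨by positivity, ?_⟩
    rw [div_le_div_iff_of_pos_right hN']
    exact_mod_cast hle L' hL'
  · intro L hL
    obtain ⟨L', hL', rfl⟩ := List.mem_map.mp hL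
    have hL2 := hL'
    rw [hLs, List.mem_append] at hL2
    rcases hL2 with h | h
    · exact StepC.of_bd hOld (List.mem_map_of_mem h)
    · obtain ⟨r, hr, rfl⟩ := List.mem_map.mp h
      exact StepC.of_stepOK C0 (growchk2_sound hN hT hcs hle hL' (hrows r hr))

/-- the version with one check of all rows -/
theorem cert_bound4' {N B0 : ℕ} (hN : 0 < N) (hT : TBookThm2) {cs : List CC}
    (hcs : ∀ c ∈ cs, CCOK N B0 c) (Old : List (ℕ × ℕ)) (rows : List GRow2) (C0 : ℝ)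
    (hOld : ∀ k l : ℕ, BdAt (Old.map (rl N)) C0 k l)
    (hOle : Old.all (fun L => decide (L.1 ≤ L.2)) = true) (hne : rows ≠ [])
    (hrows : rows.all (growchk2 N B0 cs (Old ++ rows.map GRow2.L)) = true) :
    ∃ C : ℝ, 1 ≤ C ∧ ∀ k l : ℕ, BdAt ((Old ++ rows.map GRow2.L).map (rl N)) C k l :=
  cert_bound4 hN hT hcs Old _ rows C0 rfl hOld hOle hne
    (fun r hr => List.all_eq_true.mp hrows r hr)

end Pool.Agent.TH502.RM
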